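import Mathlib
import Pool.Agent.H523R3.TransMain
import Pool.Agent.X156.TV.Lower
import Pool.Agent.X156.TV.Upper

/-!
# MP_ff81d5_co: the sequences `τ^P_d` and `τ^S_d` converge to `1` and are weakly increasing

The definitions are those of `Pool/Agent/H523R3/TransDefs.lean`.
-/

set_option autoImplicit false

namespace Pool.Agent.Results.MP_ff81d5_co.LimitAndMonotone

open Filter Topology Pool.Agent.H523R3.Trans Pool.Agent.X156.TV

lemma le_limsup_of {c : ℝ} (A : ℕ → Set ℝ) (hle : ∀ n, ∀ t ∈ A n, t ≤ 1)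
    (hge : ∀ ε : ℝ, 0 < ε → ∀ N : ℕ, ∃ n, N ≤ n ∧ ∃ t ∈ A n, c - ε ≤ t) :
    c ≤ limsup (fun n => sSup (A n)) atTop := by
  have hu : ∀ n, sSup (A n) ≤ 1 := fun n => Real.sSup_le (hle n) zero_le_one
  have hbdd : IsBoundedUnder (· ≤ ·) atTop (fun n => sSup (A n)) := isBoundedUnder_of ⟨1, hu⟩
  apply le_of_forall_pos_le_add
  intro ε hε
  have hfreq : ∃ᶠ n in atTop, c - ε ≤ sSup (A n) := by
    rw [frequently_atTop]
    intro N
    obtain ⟨n, hn, t, ht, h1⟩ := hge ε hε N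
    exact ⟨n, hn, h1.trans (le_csSup ⟨1, fun x hx => hle n x hx⟩ ht)⟩
  have := le_limsup_of_frequently_le hfreq hbdd
  linarith

lemma limsup_le_one {d : ℕ} (A : ℕ → Set ℝ) (hnn : ∀ n, ∀ t ∈ A n, 0 ≤ t)
    (hle : ∀ n, ∀ t ∈ A n, t ≤ 1) (_ : d = d) : limsup (fun n => sSup (A n)) atTop ≤ 1 := by
  have hcob : IsCoboundedUnder (· ≤ ·) atTop (fun n => sSup (A n)) :=
    IsCoboundedUnder.of_frequently_ge (a := 0)
      (Eventually.of_forall (fun n => Real.sSup_nonneg (hnn n))).frequently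
  exact limsup_le_of_le hcob (Eventually.of_forall (fun n => Real.sSup_le (hle n) zero_le_one))

lemma limsup_le_half (A : ℕ → Set ℝ) (hnn : ∀ n, ∀ t ∈ A n, 0 ≤ t)
    (hle : ∀ n, 0 < n → ∀ t ∈ A n, t ≤ 1 / 2 + 1 / 2 * (1 / (n : ℝ))) :
    limsup (fun n => sSup (A n)) atTop ≤ 1 / 2 := by
  have hcob : IsCoboundedUnder (· ≤ ·) atTop (fun n => sSup (A n)) :=
    IsCoboundedUnder.of_frequently_ge (a := 0)
      (Eventually.of_forall (fun n => Real.sSup_nonneg (hnn n))).frequently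
  have hlim : Tendsto (fun n : ℕ => (1 / 2 : ℝ) + 1 / 2 * (1 / (n : ℝ))) atTop (𝓝 (1 / 2)) := by
    have h1 : Tendsto (fun n : ℕ => (1 / 2 : ℝ) + 1 / 2 * (1 / (n : ℝ))) atTop
        (𝓝 (1 / 2 + 1 / 2 * 0)) :=
      tendsto_const_nhds.add (tendsto_one_div_atTop_nhds_zero_nat.const_mul _)
    simpa using h1
  have h2 : (fun n => sSup (A n)) ≤ᶠ[atTop] fun n : ℕ => (1 / 2 : ℝ) + 1 / 2 * (1 / (n : ℝ)) := by
    filter_upwards [eventually_gt_atTop 0] with n hn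
    exact Real.sSup_le (hle n hn) (by positivity)
  calc limsup (fun n => sSup (A n)) atTop
      ≤ limsup (fun n : ℕ => (1 / 2 : ℝ) + 1 / 2 * (1 / (n : ℝ))) atTop :=
        limsup_le_limsup h2 hcob hlim.isBoundedUnder_le
    _ = 1 / 2 := hlim.limsup_eq

lemma ratio_le {n : ℕ} (hn : 0 < n) {Δ : Set (Finset (Fin n))} (h : IsSimplicialSphere 2 Δ) :
    transversalRatio Δ ≤ 1 / 2 + 1 / 2 * (1 / (n : ℝ)) := by
  obtain ⟨W, hW, hcard⟩ := exists_transversal hn h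
  have h1 : transversalNumber Δ ≤ W.card := Nat.sInf_le ⟨W, hW, rfl⟩
  have h2 : 2 * (transversalNumber Δ : ℝ) ≤ n + 1 := by exact_mod_cast (by omega)
  have hnR : (0 : ℝ) < n := by exact_mod_cast hn
  unfold transversalRatio
  rw [div_le_iff₀ hnR]
  have h3 : (1 / 2 + 1 / 2 * (1 / (n : ℝ))) * n = (n + 1) / 2 := by
    field_simp
  rw [h3]
  linarith

/-- The polygon bound: `τ^S_2 ≤ 1/2`. -/
lemma tauS_two_le : tauS 2 ≤ 1 / 2 := by
  apply limsup_le_half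
  · rintro n t ⟨Δ, hΔ, rfl⟩
    exact transversalRatio_nonneg Δ
  · rintro n hn t ⟨Δ, hΔ, rfl⟩
    exact ratio_le hn hΔ

/-- The polygon bound: `τ^P_2 ≤ 1/2`. -/
lemma tauP_two_le : tauP 2 ≤ 1 / 2 := by
  apply limsup_le_half
  · rintro n t ⟨p, hp, rfl⟩
    exact transversalRatio_nonneg _
  · rintro n hn t ⟨p, hp, rfl⟩
    exact ratio_le hn (isSimplicialSphere_boundary (by norm_num) hp)

lemma exists_large (ε : ℝ) (hε : 0 < ε) (N : ℕ) :
    ∃ J : ℕ, 0 < J ∧ N ≤ 4 * J ∧ 1 / 2 - ε ≤ 1 / 2 - 1 / (2 * (J : ℝ)) := by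
  obtain ⟨q, hq⟩ := exists_nat_gt (1 / ε)
  refine ⟨N + q + 1, by omega, by omega, ?_⟩
  have h1 : (0 : ℝ) < ((N + q + 1 : ℕ) : ℝ) := by positivity
  have h2 : 1 / (2 * ((N + q + 1 : ℕ) : ℝ)) ≤ ε := by
    rw [div_le_iff₀ (by positivity)]
    rw [div_lt_iff₀ hε] at hq
    push_cast
    have h3 : (0 : ℝ) ≤ N := by positivity
    have h4 : (0 : ℝ) ≤ q := by positivity
    nlinarith
  linarith

/-- Nested octahedra: `1/2 ≤ τ^P_3`. -/
lemma le_tauP_three : 1 / 2 ≤ tauP 3 := by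
  apply le_limsup_of
  · rintro n t ⟨p, hp, rfl⟩
    exact transversalRatio_le_one (isComplex_boundary (by norm_num) hp)
  · intro ε hε N
    obtain ⟨J, hJ, hN, hle⟩ := exists_large ε hε N
    obtain ⟨p, hp, h⟩ := exists_polytope_three J hJ
    exact ⟨4 * J, hN, _, ⟨p, hp, rfl⟩, hle.trans h⟩

/-- Nested octahedra: `1/2 ≤ τ^S_3`. -/
lemma le_tauS_three : 1 / 2 ≤ tauS 3 := by
  apply le_limsup_of
  · rintro n t ⟨Δ, hΔ, rfl⟩
    exact transversalRatio_le_one hΔ.1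
  · intro ε hε N
    obtain ⟨J, hJ, hN, hle⟩ := exists_large ε hε N
    obtain ⟨p, hp, h⟩ := exists_polytope_three J hJ
    exact ⟨4 * J, hN, _, ⟨boundary p, isSimplicialSphere_boundary (by norm_num) hp, rfl⟩,
      hle.trans h⟩

lemma tauP_le_one {d : ℕ} (hd : 0 < d) : tauP d ≤ 1 := by
  apply limsup_le_one (d := d) _ _ _ rfl
  · rintro n t ⟨p, hp, rfl⟩
    exact transversalRatio_nonneg _
  · rintro n t ⟨p, hp, rfl⟩
    exact transversalRatio_le_one (isComplex_boundary hd hp)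

lemma tauS_le_one (d : ℕ) : tauS d ≤ 1 := by
  apply limsup_le_one (d := d) _ _ _ rfl
  · rintro n t ⟨Δ, hΔ, rfl⟩
    exact transversalRatio_nonneg _
  · rintro n t ⟨Δ, hΔ, rfl⟩
    exact transversalRatio_le_one hΔ.1

lemma mono_of (τ : ℕ → ℝ) (h2 : τ 2 ≤ 1 / 2) (h3 : 1 / 2 ≤ τ 3) (h3' : τ 3 ≤ 1)
    (h4 : ∀ d, 4 ≤ d → τ d = 1) (d d' : ℕ) (hd : 2 ≤ d) (hdd : d ≤ d') : τ d ≤ τ d' := by
  rcases Nat.lt_or_ge d 4 with h | h
  · rcases Nat.lt_or_ge d' 4 with h' | h'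
    · have e1 : d = 2 ∨ d = 3 := by omega
      have e2 : d' = 2 ∨ d' = 3 := by omega
      rcases e1 with rfl | rfl <;> rcases e2 with rfl | rfl
      · exact le_refl _
      · exact h2.trans h3
      · omega
      · exact le_refl _
    · rw [h4 d' h']
      have e1 : d = 2 ∨ d = 3 := by omega
      rcases e1 with rfl | rfl
      · linarith
      · exact h3'
  · rw [h4 d h, h4 d' (h.trans hdd)]

/-- **Q1 and Q2.** Both `τ^P_d` and `τ^S_d` tend to `1` as `d → ∞`, and both sequences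
`(τ^P_d)_{d ≥ 2}` and `(τ^S_d)_{d ≥ 2}` are weakly increasing. -/
theorem result :
    Tendsto tauP atTop (𝓝 1) ∧ Tendsto tauS atTop (𝓝 1) ∧
      (∀ d d' : ℕ, 2 ≤ d → d ≤ d' → tauP d ≤ tauP d') ∧
      (∀ d d' : ℕ, 2 ≤ d → d ≤ d' → tauS d ≤ tauS d') := by
  refine ⟨?_, ?_, ?_, ?_⟩
  · apply tendsto_const_nhds.congr'
    filter_upwards [eventually_ge_atTop 4] with d hd
    exact (tauP_eq_one hd).symm
  · apply tendsto_const_nhds.congr'
    filter_upwards [eventually_ge_atTop 4] with d hd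
    exact (tauS_eq_one hd).symm
  · exact mono_of tauP tauP_two_le le_tauP_three (tauP_le_one (by norm_num))
      (fun d hd => tauP_eq_one hd)
  · exact mono_of tauS tauS_two_le le_tauS_three (tauS_le_one 3) (fun d hd => tauS_eq_one hd)

end Pool.Agent.Results.MP_ff81d5_co.LimitAndMonotone
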